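import Pool.Agent.H79.GT.Defs

/-!
# Quasimodes of a density: the statements of the modules
-/

set_option autoImplicit false

namespace Pool.Agent.H79.GT

open MeasureTheory Set Filter Topology

/-! ## One interval -/

/-- The mass radius. -/
def T_RAD : Prop :=
  ∀ (f p : ℝ → ℝ) (l u : ℝ), Dns f p l u → ∀ r > (0 : ℝ),
    (∀ x, l ≤ x → x ≤ u → 0 ≤ rad p l u r x ∧ l ≤ x - rad p l u r x ∧ x + rad p l u r x ≤ u ∧
      p (x + rad p l u r x) - p (x - rad p l u r x) ≤ r) ∧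
    (∀ x, l < x → x < u → 0 < rad p l u r x) ∧
    (∀ x y, |rad p l u r x - rad p l u r y| ≤ |x - y|) ∧
    (∀ x, l ≤ x → x ≤ u → ¬ Zn p l u r x →
      p (x + rad p l u r x) - p (x - rad p l u r x) = r)

/-- The radius is small. -/
def T_SM : Prop :=
  ∀ (f p : ℝ → ℝ) (l u : ℝ), Dns f p l u → ∀ η > (0 : ℝ), ∃ r₀ > (0 : ℝ), ∀ r, 0 < r → r ≤ r₀ →
    ∀ x, rad p l u r x ≤ η

/-- The radius of a point outside the zones does not depend on the interval. -/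
def T_SAME : Prop :=
  ∀ (f f' p : ℝ → ℝ) (l u l' u' : ℝ), Dns f p l u → Dns f' p l' u' → ∀ r > (0 : ℝ), ∀ x,
    l < x → x < u → l' < x → x < u' → ¬ Zn p l u r x → ¬ Zn p l' u' r x →
    rad p l u r x = rad p l' u' r x

/-- The inverse of the radius is at most `4 * f / r`, up to an error which is small in the mean
square. -/
def T_INV : Prop :=
  ∀ (f p : ℝ → ℝ) (l u : ℝ), Dns f p l u → ∀ δ > (0 : ℝ), ∃ r₀ > (0 : ℝ), ∀ r, 0 < r → r ≤ r₀ →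
    ∃ e : ℝ → ℝ, Measurable e ∧ (∀ x, 0 ≤ e x) ∧
      IntegrableOn (fun x => e x ^ 2) (Ioo l u) ∧ ∫ x in Ioo l u, e x ^ 2 ≤ δ ∧
      ∀ x, l < x → x < u → ¬ Zn p l u r x → r / rad p l u r x ≤ 4 * f x + e x

/-- The flat average is bounded in `L¹`. -/
def T_AV1 : Prop :=
  ∀ (f p : ℝ → ℝ) (l u : ℝ), Dns f p l u → ∀ r > (0 : ℝ), ∀ φ : ℝ → ℝ, (∀ x, 0 ≤ φ x) →
    IntegrableOn φ (Ioo l u) →
    IntegrableOn (fa (rad p l u r) φ) (Ioo l u) ∧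
    ∫ x in Ioo l u, fa (rad p l u r) φ x ≤ 11 * ∫ x in Ioo l u, φ x

/-- The flat average of the oscillation tends to zero in `L¹`. -/
def T_CV1 : Prop :=
  ∀ (f p : ℝ → ℝ) (l u : ℝ), Dns f p l u → ∀ φ : ℝ → ℂ, Measurable φ →
    IntegrableOn φ (Ioo l u) → ∀ δ > (0 : ℝ), ∃ r₀ > (0 : ℝ), ∀ r, 0 < r → r ≤ r₀ →
      IntegrableOn (fun x => fa (rad p l u r) (fun y => ‖φ y - φ x‖) x) (Ioo l u) ∧
      ∫ x in Ioo l u, fa (rad p l u r) (fun y => ‖φ y - φ x‖) x ≤ δ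

/-- The flat average of the oscillation of a square integrable function tends to zero in the mean
square. -/
def T_CV2 : Prop :=
  ∀ (f p : ℝ → ℝ) (l u : ℝ), Dns f p l u → ∀ φ : ℝ → ℝ, Measurable φ →
    IntegrableOn (fun x => φ x ^ 2) (Ioo l u) → ∀ δ > (0 : ℝ), ∃ r₀ > (0 : ℝ), ∀ r, 0 < r →
      r ≤ r₀ →
      IntegrableOn (fun x => fa (rad p l u r) (fun y => |φ y - φ x|) x ^ 2) (Ioo l u) ∧
      ∫ x in Ioo l u, fa (rad p l u r) (fun y => |φ y - φ x|) x ^ 2 ≤ δ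

/-- The average of the indicator function of a set, tested against an integrable function,
uniformly in the set. -/
def T_WK : Prop :=
  ∀ (f p : ℝ → ℝ) (l u : ℝ), Dns f p l u → ∀ h : ℝ → ℝ, Measurable h → (∀ x, 0 ≤ h x) →
    IntegrableOn h (Ioo l u) → ∀ δ > (0 : ℝ), ∃ r₀ > (0 : ℝ), ∀ r, 0 < r → r ≤ r₀ →
      ∀ E : Set ℝ, MeasurableSet E →
      IntegrableOn (fun x => h x * fa (rad p l u r) (E.indicator 1) x) (Ioo l u) ∧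
      ∫ x in Ioo l u, h x * fa (rad p l u r) (E.indicator 1) x ≤
        11 * (∫ x in Ioo l u ∩ E, h x) + δ

/-- The tent average: the value, the bound of the oscillation and the local Lipschitz bound. -/
def T_DER : Prop :=
  ∀ R : ℝ → ℝ, (∀ x y, |R x - R y| ≤ |x - y|) → ∀ φ : ℝ → ℂ, Measurable φ →
    (∀ x, ‖φ x‖ ≤ 1) → ∀ x, 0 < R x →
    ‖av R φ x‖ ≤ 1 ∧
    ∀ c : ℂ, ‖av R φ x - c‖ ≤ 2 * fa R (fun y => ‖φ y - c‖) x ∧
      ∀ x', |x' - x| ≤ R x / 8 →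
        ‖av R φ x' - av R φ x‖ ≤ 16 * (|x' - x| / R x) * fa R (fun y => ‖φ y - c‖) x

/-! ## Dynamics -/

/-- The cutoff function of a set in a measure preserving system. -/
def T_MASS : Prop :=
  ∀ (Ω : Type) [MeasurableSpace Ω] (μ : Measure Ω) [IsFiniteMeasure μ] (T T' : Ω → Ω)
    (G : Set Ω), MeasurePreserving T μ μ → MeasurePreserving T' μ μ →
    (∀ p ∈ G, T p ∈ G ∧ T' p ∈ G ∧ T' (T p) = p ∧ T (T' p) = p) → (∀ᵐ p ∂μ, p ∈ G) →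
    ∀ (τ : Ω → ℝ) (Z : Set Ω) (L : ℝ), Measurable τ → (∀ p, 0 ≤ τ p) → MeasurableSet Z →
    0 < L →
    ∃ θ : Ω → ℝ, Measurable θ ∧ (∀ p, 0 ≤ θ p ∧ θ p ≤ 1) ∧ (∀ p ∈ Z, θ p = 0) ∧
      (∀ p ∈ G, |θ (T p) - θ p| ≤ τ p / L) ∧
      ∫⁻ p in {p | θ p < 1 ∨ θ (T p) < 1}, ENNReal.ofReal (min (τ p) L) ∂μ ≤
        ENNReal.ofReal (8 * L) * μ Z

section
open Pool.Agent.H44.DU

/-- The gluings in the leaf coordinates: the masses, the radii, the averages and the unitary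
section. -/
def T_EQV : Prop :=
  ∀ (n : ℕ) (S : Surf n) (t : ℝ) (f : Fin n → ℝ → ℝ), S.LD t f → S.SInc t (S.pf t f) →
    (∀ s, le S t s < ri S t s → Dns (f s.1) (S.pf t f s.1) (le S t s) (ri S t s)) ∧
    (∀ s, le S t (S.gl s) = S.mv t s (le S t s) ∧ ri S t (S.gl s) = S.mv t s (ri S t s)) ∧
    (∀ s x y, le S t s ≤ x → x ≤ y → y ≤ ri S t s →
      S.pf t f (S.gl s).1 (S.mv t s y) - S.pf t f (S.gl s).1 (S.mv t s x) =
        S.pf t f s.1 y - S.pf t f s.1 x) ∧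
    (∀ s r x, le S t s ≤ x → x ≤ ri S t s →
      Rd S t f r (S.gl s) (S.mv t s x) = S.a s * Rd S t f r s x) ∧
    (∀ s r x (c : ℂ) (φ φ' : ℝ → ℂ), 0 < r → le S t s < x → x < ri S t s →
      (∀ᵐ y : ℝ, le S t s < y → y < ri S t s → φ' (S.mv t s y) = c * φ y) →
      av (Rd S t f r (S.gl s)) φ' (S.mv t s x) = c * av (Rd S t f r s) φ x) ∧
    ∀ s τ, ∀ᵐ x : ℝ, le S t s < x → x < ri S t s →
      uu τ f (S.gl s).1 (S.mv t s x) = S.zt τ s * uu τ f s.1 x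

/-- Existence of layers. -/
def T_LAY : Prop :=
  ∀ (n : ℕ) (S : Surf n) (t : ℝ) (f : Fin n → ℝ → ℝ), S.LD t f → S.SInc t (S.pf t f) →
    ∀ r L : ℝ, 0 < r → 0 < L → ∃ θ, Lay S t f r L θ ∧
      ∑ i : Fin n, ∫ x in Ioo (S.xl t i) (S.xr t i) ∩ Es S t θ i,
        min (f i x * ch S t i x) L * f i x ≤ 100 * n * L * r

/-! ## Triangles -/

/-- The chords of a triangle. -/
def T_CH : Prop :=
  ∀ (n : ℕ) (S : Surf n) (t : ℝ) (i : Fin n), S.xl t i < S.xr t i ∧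
    (∀ z, z ∈ S.tri i ↔ S.xl t i ≤ xi t z ∧ xi t z ≤ S.xr t i ∧
      bot S t i (xi t z) ≤ z.im ∧ z.im ≤ top S t i (xi t z)) ∧
    (∀ s : Side n, s.1 = i → ∀ x, S.InI t s x → bot S t i x = (S.pt t s x).im) ∧
    (∀ s : Side n, s.1 = i → ∀ x, S.InJ t s x → top S t i x = (S.pt t s x).im) ∧
    (∀ x, S.xl t i < x → x < S.xr t i → 0 < ch S t i x) ∧
    (∀ x, 0 ≤ ch S t i x) ∧
    ConcaveOn ℝ (Icc (S.xl t i) (S.xr t i)) (ch S t i) ∧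
    Measurable (ch S t i) ∧ Measurable (bot S t i) ∧
    ∃ K : NNReal, LipschitzOnWith K (top S t i) (Icc (S.xl t i) (S.xr t i)) ∧
      LipschitzOnWith K (bot S t i) (Icc (S.xl t i) (S.xr t i))

/-- The sides of a triangle. -/
def T_PART : Prop :=
  ∀ (n : ℕ) (S : Surf n) (t : ℝ),
    (∀ i : Fin n, ∀ᵐ x : ℝ, S.xl t i < x → x < S.xr t i →
      (∃ s : Side n, s.1 = i ∧ S.InI t s x) ∧ ∃ s : Side n, s.1 = i ∧ S.InJ t s x) ∧
    (∀ (s : Side n) (x : ℝ), (S.InI t s x ∨ S.InJ t s x) ↔ (le S t s < x ∧ x < ri S t s)) ∧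
    (∀ s : Side n, S.xl t s.1 ≤ le S t s ∧ le S t s ≤ ri S t s ∧ ri S t s ≤ S.xr t s.1) ∧
    (∀ s : Side n, le S t s = ri S t s → le S t s = S.xl t s.1 ∨ le S t s = S.xr t s.1) ∧
    (∀ s : Side n, le S t s < ri S t s → ∀ z ∈ segment ℝ (S.P s) (S.Q s),
      le S t s ≤ xi t z ∧ xi t z ≤ ri S t s ∧ z = S.pt t s (xi t z))

/-- Integrals of functions of the leaf coordinate over a triangle. -/
def T_FUB : Prop :=
  ∀ (n : ℕ) (S : Surf n) (t : ℝ) (i : Fin n) (M : ℝ → ℝ),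
    AEStronglyMeasurable M (volume.restrict (Ioo (S.xl t i) (S.xr t i))) →
    IntegrableOn (fun x => M x * ch S t i x) (Ioo (S.xl t i) (S.xr t i)) →
    IntegrableOn (fun z => M (xi t z)) (S.tri i) ∧
    ∫ z in S.tri i, M (xi t z) = ∫ x in Ioo (S.xl t i) (S.xr t i), M x * ch S t i x

/-- Interpolation between the sides. -/
def T_INT : Prop :=
  ∀ (n : ℕ) (S : Surf n) (t : ℝ), ∃ C > (0 : ℝ), ∀ (ζ : Side n → ℂ) (Φ : Side n → ℝ → ℂ)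
    (X : Fin n → ℝ → ℝ) (Y : Side n → ℝ → ℝ) (K : NNReal) (d : ℝ), 0 < d →
    (∀ s, LipschitzOnWith K (Φ s) (Icc (le S t s) (ri S t s))) →
    (∀ s x, le S t s ≤ x → x ≤ ri S t s → (x ≤ le S t s + d ∨ ri S t s - d ≤ x) → Φ s x = 0) →
    (∀ s x, ‖Φ s x‖ ≤ 1) →
    (∀ s x, le S t s ≤ x → x ≤ ri S t s → Φ (S.gl s) (S.mv t s x) = ζ s * Φ s x) →
    (∀ i, IntegrableOn (X i) (Ioo (S.xl t i) (S.xr t i))) →
    (∀ s, IntegrableOn (Y s) (Ioo (le S t s) (ri S t s))) →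
    (∀ s s' : Side n, s.1 = s'.1 → ∀ᵐ x : ℝ, S.InI t s x → S.InJ t s' x →
      ‖Φ s x - Φ s' x‖ ^ 2 ≤ ch S t s.1 x * X s.1 x) →
    (∀ s : Side n, ∀ᵐ x : ℝ, le S t s < x → x < ri S t s → ∃ m : ℝ, 0 ≤ m ∧
      m ^ 2 * ch S t s.1 x ≤ Y s x ∧ ∀ᶠ x' in 𝓝 x, ‖Φ s x' - Φ s x‖ ≤ m * |x' - x|) →
    ∃ G : Fin n → ℂ → ℂ, S.Sec ζ G ∧ (∀ i, ∀ z ∈ S.tri i, ‖G i z‖ ≤ 1) ∧
      S.en ((t : ℂ) + Complex.I) G ≤ ∑ i : Fin n, ∫ x in Ioo (S.xl t i) (S.xr t i), X i x ∧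
      S.en 1 G ≤ C * (∑ i : Fin n, (∫ x in Ioo (S.xl t i) (S.xr t i), X i x) +
        ∑ s : Side n, ∫ x in Ioo (le S t s) (ri S t s), Y s x) ∧
      ∀ w : Fin n → ℝ → ℂ, (∀ i, Measurable (w i)) → (∀ i x, ‖w i x‖ ≤ 1) →
        ∑ i : Fin n, ∫ z in S.tri i, ‖G i z - w i (xi t z)‖ ≤
          C * ∑ s : Side n, ∫ x in Ioo (le S t s) (ri S t s), ‖Φ s x - w s.1 x‖

/-! ## Layers -/

/-- The averages of the layers vanish near the ends of the sides, and far from them the radius is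
the same on both sides of a triangle. -/
def T_ZON : Prop :=
  ∀ (n : ℕ) (S : Surf n) (t : ℝ) (f : Fin n → ℝ → ℝ), S.LD t f → S.SInc t (S.pf t f) →
    ∀ r : ℝ, 0 < r →
    (∀ (L : ℝ) (θ : Side n → ℝ → ℝ), 0 < L → Lay S t f r L θ → ∀ (s : Side n) (x : ℝ),
      le S t s < x → x < ri S t s → Zn (S.pf t f s.1) (le S t s) (ri S t s) r x →
      av (Rd S t f r s) (fun y => (θ s y : ℂ)) x = 0) ∧
    (∀ s s' : Side n, s.1 = s'.1 → ∀ x, S.InI t s x → S.InJ t s' x →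
      ¬ Zn (S.pf t f s.1) (le S t s) (ri S t s) r x →
      ¬ Zn (S.pf t f s'.1) (le S t s') (ri S t s') r x → Rd S t f r s x = Rd S t f r s' x)

/-- The change of the average of a layer along a chord. -/
def T_TRI : Prop :=
  ∀ (n : ℕ) (S : Surf n) (t : ℝ) (f : Fin n → ℝ → ℝ), S.LD t f → S.SInc t (S.pf t f) →
    ∀ (r L : ℝ) (θ : Side n → ℝ → ℝ), 0 < r → 0 < L → Lay S t f r L θ →
    ∀ s s' : Side n, s.1 = s'.1 → ∀ x, S.InI t s x → S.InJ t s' x →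
      ‖av (Rd S t f r s) (fun y => (θ s y : ℂ)) x -
        av (Rd S t f r s') (fun y => (θ s' y : ℂ)) x‖ ≤
      4 / L * ch S t s.1 x *
        (f s.1 x * (fa (Rd S t f r s) ((Es S t θ s.1).indicator 1) x +
            fa (Rd S t f r s') ((Es S t θ s.1).indicator 1) x) +
          (fa (Rd S t f r s) (fun y => |f s.1 y - f s.1 x|) x +
            fa (Rd S t f r s') (fun y => |f s.1 y - f s.1 x|) x))

/-- The sum of the layers. -/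
def T_SUM : Prop :=
  ∀ (μ : Measure ℝ) (K : ℕ) (f : ℝ → ℝ) (D E : ℕ → ℝ → ℝ) (A δ : ℝ), 0 ≤ A → 0 ≤ δ →
    AEStronglyMeasurable f μ → (∀ j, AEStronglyMeasurable (D j) μ) →
    (∀ j, AEStronglyMeasurable (E j) μ) → (∀ x, 0 ≤ f x) → (∀ j x, 0 ≤ D j x ∧ D j x ≤ 2) →
    Integrable (fun x => f x ^ 2) μ → (∀ j, Integrable (fun x => E j x ^ 2) μ) →
    (∀ j < K, ∫ x, E j x ^ 2 ∂μ ≤ δ) → (∀ j < K, ∫ x, f x ^ 2 * D j x ∂μ ≤ A * 4 ^ j + δ) →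
    Integrable (fun x => (∑ j ∈ Finset.range K, (1 / 2 : ℝ) ^ j * (f x * D j x + E j x)) ^ 2) μ ∧
    ∫ x, (∑ j ∈ Finset.range K, (1 / 2 : ℝ) ^ j * (f x * D j x + E j x)) ^ 2 ∂μ ≤
      16 * K * A + 30 * δ

/-- The energy of a layer is controlled by the mass of its support. -/
def T_VB : Prop :=
  ∀ (n : ℕ) (S : Surf n) (t : ℝ) (f : Fin n → ℝ → ℝ), S.LD t f → S.SInc t (S.pf t f) →
    ∀ δ > (0 : ℝ), ∃ r₀ > (0 : ℝ), ∃ L₀ > (0 : ℝ), ∀ r L : ℝ, 0 < r → r ≤ r₀ → L₀ ≤ L →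
      ∀ θ, Lay S t f r L θ →
      ∑ i : Fin n, ∫ x in Ioo (S.xl t i) (S.xr t i) ∩ Es S t θ i,
        min (f i x * ch S t i x) L * f i x ≤ 100 * n * L * r →
      ∀ s : Side n,
        ∫ x in Ioo (le S t s) (ri S t s), f s.1 x ^ 2 * ch S t s.1 x *
          fa (Rd S t f r s) ((Es S t θ s.1).indicator 1) x ≤ 1100 * n * L * r + δ

/-- The quasimodes. -/
def T_B0 : Prop :=
  ∀ (n : ℕ) (S : Surf n) (t : ℝ) (f : Fin n → ℝ → ℝ) (τ : ℝ), S.LD t f →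
    S.SInc t (S.pf t f) → ∀ ε > (0 : ℝ), ∃ T₀ > (0 : ℝ), ∀ T, T₀ ≤ T →
      ∃ G : Fin n → ℂ → ℂ, S.Sec (S.zt τ) G ∧ (∀ i, ∀ z ∈ S.tri i, ‖G i z‖ ≤ 1) ∧
        S.qe t T G ≤ ε ∧
        ∑ i : Fin n, ∫ z in S.tri i, ‖G i z - uu τ f i (xi t z)‖ ≤ ε

end

end Pool.Agent.H79.GT
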