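import Pool.Agent.H44.GT.Defs

/-!
# Quasimodes of a density: definitions

The averages over intervals of a given mass, the chords of the triangles, the layers.
-/

set_option autoImplicit false

namespace Pool.Agent.H79.GT

open MeasureTheory

/-! ## One interval -/

/-- The largest radius of an interval around `x` which is contained in `[l, u]` and has mass at
most `r`. -/
noncomputable def rad (p : ℝ → ℝ) (l u r x : ℝ) : ℝ :=
  sSup {ρ : ℝ | 0 ≤ ρ ∧ l ≤ x - ρ ∧ x + ρ ≤ u ∧ p (x + ρ) - p (x - ρ) ≤ r}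

/-- The average with the tent kernel over the interval with the centre `x` and the radius
`R x / 2`. -/
noncomputable def av (R : ℝ → ℝ) (φ : ℝ → ℂ) (x : ℝ) : ℂ :=
  ∫ v in Set.Ioo (-1 : ℝ) 1, ((1 - |v| : ℝ) : ℂ) * φ (x + R x / 2 * v)

/-- The flat average over the interval with the centre `x` and the radius `3 * R x / 4`, up to the
factor `3 / 2`. -/
noncomputable def fa (R : ℝ → ℝ) (φ : ℝ → ℝ) (x : ℝ) : ℝ :=
  (R x)⁻¹ * ∫ y in Set.Ioo (x - 3 / 4 * R x) (x + 3 / 4 * R x), φ y

/-- A square integrable density `f` on an interval, of which the mass `p` is strictly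
increasing. -/
structure Dns (f p : ℝ → ℝ) (l u : ℝ) : Prop where
  lt : l < u
  meas : Measurable f
  nonneg : ∀ x, 0 ≤ f x
  sq : IntegrableOn (fun x => f x ^ 2) (Set.Ioo l u)
  mass : ∀ x y, l ≤ x → x ≤ y → y ≤ u → p y - p x = ∫ z in Set.Ioo x y, f z
  inc : ∀ x y, l ≤ x → x < y → y ≤ u → p x < p y

/-- The point has mass distance at most `r` from an end of the interval. -/
def Zn (p : ℝ → ℝ) (l u r x : ℝ) : Prop := p x - p l ≤ r ∨ p u - p x ≤ r

/-! ## Triangles and sides -/

section
open Pool.Agent.H44.DU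

variable {n : ℕ} (S : Surf n)

/-- The smallest coordinate of a point of the side. -/
noncomputable def le (t : ℝ) (s : Side n) : ℝ := min (xi t (S.P s)) (xi t (S.Q s))

/-- The largest coordinate of a point of the side. -/
noncomputable def ri (t : ℝ) (s : Side n) : ℝ := max (xi t (S.P s)) (xi t (S.Q s))

/-- The height at which the leaf leaves the triangle. -/
noncomputable def top (t : ℝ) (i : Fin n) (x : ℝ) : ℝ :=
  sSup {y : ℝ | ∃ z ∈ S.tri i, xi t z = x ∧ z.im = y}

/-- The height at which the leaf enters the triangle. -/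
noncomputable def bot (t : ℝ) (i : Fin n) (x : ℝ) : ℝ :=
  sInf {y : ℝ | ∃ z ∈ S.tri i, xi t z = x ∧ z.im = y}

/-- The height of the chord of the leaf in the triangle. -/
noncomputable def ch (t : ℝ) (i : Fin n) (x : ℝ) : ℝ := top S t i x - bot S t i x

/-- The radius of mass `r` on a side. -/
noncomputable def Rd (t : ℝ) (f : Fin n → ℝ → ℝ) (r : ℝ) (s : Side n) (x : ℝ) : ℝ :=
  rad (S.pf t f s.1) (le S t s) (ri S t s) r x

/-- A layer with the mass `r` and the length `L`: a function of the crossings of the leaves with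
the sides which vanishes near the ends of the sides and does not change quickly along the
leaves. -/
structure Lay (t : ℝ) (f : Fin n → ℝ → ℝ) (r L : ℝ) (θ : Side n → ℝ → ℝ) : Prop where
  meas : ∀ s, Measurable (θ s)
  nonneg : ∀ s x, 0 ≤ θ s x
  le_one : ∀ s x, θ s x ≤ 1
  glue : ∀ s x, le S t s < x → x < ri S t s → θ (S.gl s) (S.mv t s x) = θ s x
  zone : ∀ s x, le S t s < x → x < ri S t s →
    Zn (S.pf t f s.1) (le S t s) (ri S t s) (2 * r) x → θ s x = 0
  step : ∀ s s' : Side n, s.1 = s'.1 → ∀ᵐ x : ℝ, S.InI t s x → S.InJ t s' x →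
    |θ s x - θ s' x| ≤ f s.1 x * ch S t s.1 x / L

/-- The leaves of the triangle on which the layer is not equal to `1` at both ends. -/
def Es (t : ℝ) (θ : Side n → ℝ → ℝ) (i : Fin n) : Set ℝ :=
  {x | ∃ s : Side n, s.1 = i ∧ (S.InI t s x ∨ S.InJ t s x) ∧ θ s x < 1}

end

end Pool.Agent.H79.GT
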